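import Pool.Agent.Helper41.KM.Planes

/-!
# The classification for primes with independent signs

Let `r` be a prime such that the signs of the numbers `sin (2 π h a / r)`, `0 < a < r / 2`, are
independent modulo two as functions of `h` (equivalently the relative class number of the field of
the `r`-th roots of unity is odd).  If the heights of all multiples of a nondegenerate vector are
odd, then the vector is in one of the fifteen planes.
-/

set_option autoImplicit false

open Finset

namespace Pool.Agent.Helper41.KM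

open Pool.Agent.Helper73.QC Pool.Agent.Helper79.KM Pool.Agent.Helper40.KM

/-- For every nonempty set of positive integers `a < r / 2` there is an `h` such that an odd number
of the `h a` have a remainder greater than `r / 2`. -/
def SignsIndependent (r : ℕ) : Prop :=
  ∀ A : Finset ℕ, (∀ a ∈ A, 0 < a ∧ 2 * a < r) →
    (∀ h : (ZMod r)ˣ, Even (A.filter fun a : ℕ => r < 2 * ((h : ZMod r) * (a : ZMod r)).val).card) →
      A = ∅

section

variable {r : ℕ} [hr : Fact r.Prime]

/-- the sign -/
def sg (x : ZMod r) : ZMod 2 := if r < 2 * x.val then 1 else 0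

/-- the representative up to the sign -/
def fold (x : ZMod r) : ℕ := if 2 * x.val < r then x.val else r - x.val

theorem two_val_ne (hr2 : r ≠ 2) (x : ZMod r) : 2 * x.val ≠ r := by
  intro h
  have h1 : 2 ∣ r := ⟨_, h.symm⟩
  rcases (Nat.dvd_prime hr.out).1 h1 with h2 | h2
  · omega
  · exact hr2 h2.symm

theorem val_neg_of {x : ZMod r} (hx : x ≠ 0) : (-x).val = r - x.val := by
  have : NeZero x := ⟨hx⟩
  exact ZMod.val_neg_of_ne_zero x

theorem sg_neg (hr2 : r ≠ 2) {x : ZMod r} (hx : x ≠ 0) : sg (-x) = sg x + 1 := by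
  have h1 := two_val_ne hr2 x
  have h2 := ZMod.val_lt x
  simp only [sg, val_neg_of hx]
  by_cases h : r < 2 * x.val
  · rw [if_neg (by omega), if_pos h]
    decide
  · rw [if_pos (by omega), if_neg h]
    decide

theorem cast_fold (hr2 : r ≠ 2) {x : ZMod r} (hx : x ≠ 0) :
    (sg x = 0 ∧ ((fold x : ℕ) : ZMod r) = x) ∨ (sg x = 1 ∧ ((fold x : ℕ) : ZMod r) = -x) := by
  have h1 := two_val_ne hr2 x
  have h2 := ZMod.val_lt x
  simp only [sg, fold]
  by_cases h : 2 * x.val < r
  · left
    rw [if_neg (by omega), if_pos h]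
    exact ⟨rfl, ZMod.natCast_zmod_val x⟩
  · right
    rw [if_pos (by omega), if_neg h, Nat.cast_sub h2.le, ZMod.natCast_self, zero_sub,
      ZMod.natCast_zmod_val]
    exact ⟨rfl, rfl⟩

theorem fold_bounds (hr2 : r ≠ 2) {x : ZMod r} (hx : x ≠ 0) : 0 < fold x ∧ 2 * fold x < r := by
  have h1 := two_val_ne hr2 x
  have h2 := ZMod.val_lt x
  have h3 : 0 < x.val := Nat.pos_of_ne_zero (by rwa [ne_eq, ZMod.val_eq_zero])
  simp only [fold]
  split_ifs <;> omega

theorem fold_eq_iff (hr2 : r ≠ 2) {x v : ZMod r} (hx : x ≠ 0) (hv : v ≠ 0) :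
    fold x = fold v ↔ x = v ∨ x = -v := by
  constructor
  · intro h
    rcases cast_fold hr2 hx with ⟨-, e⟩ | ⟨-, e⟩ <;> rcases cast_fold hr2 hv with ⟨-, e'⟩ | ⟨-, e'⟩
    · left
      rw [← e, h, e']
    · right
      rw [← e, h, e']
    · right
      rw [← neg_inj, ← e, h, e', neg_neg]
    · left
      rw [← neg_inj, ← e, h, e']
  · rintro (rfl | rfl)
    · rfl
    · have h1 := two_val_ne hr2 v
      have h2 := ZMod.val_lt v
      simp only [fold, val_neg_of hv]
      split_ifs <;> omega

/-- the height of a vector and the signs of the halves of its residues -/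
theorem height_eq (hr2 : r ≠ 2) (a : Fin 5 → ZMod r) (ha : ∀ i, residues a i ≠ 0) :
    ((height fun i => 2 * a i : ℕ) : ZMod 2) = ∑ i, sg (residues a i) := by
  have e1 : ∀ i, residues (fun i => 2 * a i) i = 2 * residues a i := by
    intro i
    fin_cases i <;> simp [residues] <;> ring
  have e2 : ∀ i, (residues (fun i => 2 * a i) i).val + r * (if r < 2 * (residues a i).val then 1
      else 0) = 2 * (residues a i).val := by
    intro i
    have h1 := two_val_ne hr2 (residues a i)
    have h2 := ZMod.val_lt (residues a i)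
    rw [e1, two_mul]
    split_ifs with h
    · have h3 := ZMod.val_add_val_of_le (a := residues a i) (b := residues a i) (by omega)
      omega
    · have h3 := ZMod.val_add_of_lt (a := residues a i) (b := residues a i) (by omega)
      omega
  have e3 : r ∣ ∑ i, (residues (fun i => 2 * a i) i).val := by
    rw [← ZMod.natCast_eq_zero_iff]
    push_cast
    simp only [ZMod.natCast_zmod_val]
    simp only [Fin.sum_univ_succ, residues]
    simp
    ring
  obtain ⟨c, hc⟩ := e3
  have e4 : (height fun i => 2 * a i) = c := by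
    rw [height, hc]
    exact Nat.mul_div_cancel_left c hr.out.pos
  have e5 : r * c + r * ∑ i, (if r < 2 * (residues a i).val then 1 else 0) =
      2 * ∑ i, (residues a i).val := by
    rw [← hc, mul_sum, mul_sum, ← sum_add_distrib]
    exact sum_congr rfl fun i _ => e2 i
  have e6 := congrArg (Nat.cast : ℕ → ZMod 2) e5
  have hodd : (r : ZMod 2) = 1 := by
    have h := (hr.out.eq_two_or_odd').resolve_left hr2
    rw [ZMod.natCast_eq_one_iff_odd]
    exact h
  have h2 : ((2 : ℕ) : ZMod 2) = 0 := rfl
  rw [Nat.cast_add, Nat.cast_mul, Nat.cast_mul, hodd, one_mul, one_mul, Nat.cast_mul, h2,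
    zero_mul] at e6
  have e7 : ((∑ i, (if r < 2 * (residues a i).val then 1 else 0) : ℕ) : ZMod 2) =
      ∑ i, sg (residues a i) := by
    push_cast
    rfl
  rw [e7] at e6
  rw [e4]
  have h3 : ∀ x y : ZMod 2, x + y = 0 → x = y := by decide
  exact h3 _ _ e6

theorem odd_cast {n : ℕ} (h : Odd n) : (n : ZMod 2) = 1 := (ZMod.natCast_eq_one_iff_odd).2 h

theorem even_of_cast {n : ℕ} (h : (n : ZMod 2) = 0) : Even n :=
  (ZMod.natCast_eq_zero_iff_even).1 h

/-- all heights are odd: every residue occurs an even number of times up to the sign -/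
theorem even_of_heights (hr2 : r ≠ 2) (hI : SignsIndependent r) (a : Fin 5 → ZMod r)
    (ha : ∀ i, residues a i ≠ 0)
    (hh : ∀ h : (ZMod r)ˣ, Odd (height fun i => (h : ZMod r) * a i)) {v : ZMod r} (hv : v ≠ 0) :
    Even (#{i : Fin 10 | residues a i = v ∨ residues a i = -v}) := by
  have h20 : (2 : ZMod r) ≠ 0 := by
    intro h
    have h1 : ((2 : ℕ) : ZMod r) = 0 := by exact_mod_cast h
    rw [ZMod.natCast_eq_zero_iff] at h1
    exact hr2 ((Nat.prime_dvd_prime_iff_eq hr.out Nat.prime_two).1 h1)
  have hmul : ∀ (h : ZMod r) (i : Fin 10), residues (fun j => h * a j) i = h * residues a i := by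
    intro h i
    fin_cases i <;> simp [residues] <;> ring
  -- the signs of the residues
  have s1 : ∀ h : (ZMod r)ˣ, ∑ i, sg ((h : ZMod r) * residues a i) = 1 := by
    intro h
    have h1 := hh (Units.mk0 2 h20 * h)
    have h2 := height_eq hr2 (fun j => (h : ZMod r) * a j) (fun i => by
      rw [hmul]
      exact mul_ne_zero h.ne_zero (ha i))
    have h3 : (fun i => ((Units.mk0 2 h20 * h : (ZMod r)ˣ) : ZMod r) * a i) =
        fun i => 2 * ((h : ZMod r) * a i) := by
      funext i
      rw [Units.val_mul, Units.val_mk0, mul_assoc]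
    rw [h3] at h1
    rw [odd_cast h1] at h2
    simp only [hmul] at h2
    exact h2.symm
  have s2 : ∀ (h : (ZMod r)ˣ) (i : Fin 10), sg ((h : ZMod r) * residues a i) =
      sg ((h : ZMod r) * ((fold (residues a i) : ℕ) : ZMod r)) + sg (residues a i) := by
    intro h i
    have hne := mul_ne_zero h.ne_zero (ha i)
    rcases cast_fold hr2 (ha i) with ⟨e1, e2⟩ | ⟨e1, e2⟩
    · rw [e2, e1, add_zero]
    · rw [e2, e1, mul_neg, sg_neg hr2 hne, add_assoc]
      have : (1 : ZMod 2) + 1 = 0 := rfl
      rw [this, add_zero]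
  have s3 : ∀ i : Fin 10, sg ((fold (residues a i) : ℕ) : ZMod r) = 0 := by
    intro i
    have h1 := (fold_bounds hr2 (ha i)).2
    simp only [sg]
    rw [ZMod.val_natCast_of_lt (by omega), if_neg (by omega)]
  have s4 : ∀ h : (ZMod r)ˣ, ∑ i, sg ((h : ZMod r) * ((fold (residues a i) : ℕ) : ZMod r)) =
      1 + ∑ i, sg (residues a i) := by
    intro h
    have h1 := s1 h
    simp only [s2] at h1
    rw [sum_add_distrib] at h1
    have h3 : ∀ x y : ZMod 2, x + y = 1 → x = 1 + y := by decide
    exact h3 _ _ h1
  have s5 : (1 : ZMod 2) + ∑ i, sg (residues a i) = 0 := by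
    have h1 := s4 1
    simp only [Units.val_one, one_mul, s3, sum_const_zero] at h1
    exact h1.symm
  -- the set of the representatives which occur an odd number of times
  set A : Finset ℕ := (Ico 1 r).filter fun b => 2 * b < r ∧
    Odd (#{i : Fin 10 | fold (residues a i) = b}) with hA
  have hAe : A = ∅ := by
    refine hI A ?_ ?_
    · intro b hb
      rw [hA, mem_filter, mem_Ico] at hb
      exact ⟨hb.1.1, hb.2.1⟩
    · intro h
      apply even_of_cast
      have h1 := s4 h
      rw [s5] at h1
      rw [← h1]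
      have h2 : (((A.filter fun b : ℕ => r < 2 * ((h : ZMod r) * (b : ZMod r)).val).card : ℕ) : ZMod 2) =
          ∑ b ∈ A, sg ((h : ZMod r) * ((b : ℕ) : ZMod r)) := by
        rw [card_filter]
        push_cast
        rfl
      rw [h2]
      have h3 : ∑ i, sg ((h : ZMod r) * ((fold (residues a i) : ℕ) : ZMod r)) =
          ∑ b ∈ (Ico 1 r).filter (fun b => 2 * b < r),
            ((#{i : Fin 10 | fold (residues a i) = b} : ℕ) : ZMod 2) *
              sg ((h : ZMod r) * ((b : ℕ) : ZMod r)) := by
        rw [← sum_fiberwise_of_maps_to (s := univ)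
          (t := (Ico 1 r).filter (fun b => 2 * b < r)) (g := fun i => fold (residues a i))]
        · refine sum_congr rfl fun b _ => ?_
          rw [sum_congr rfl (g := fun _ => sg ((h : ZMod r) * ((b : ℕ) : ZMod r))), sum_const,
            nsmul_eq_mul]
          intro i hi
          rw [(mem_filter.1 hi).2]
        · intro i _
          rw [mem_filter, mem_Ico]
          have h4 := fold_bounds hr2 (ha i)
          omega
      rw [h3]
      have h5 : A = ((Ico 1 r).filter (fun b => 2 * b < r)).filter fun b =>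
          Odd (#{i : Fin 10 | fold (residues a i) = b}) := by
        rw [hA, filter_filter]
      rw [h5, sum_filter]
      refine sum_congr rfl fun b _ => ?_
      by_cases h6 : Odd (#{i : Fin 10 | fold (residues a i) = b})
      · rw [if_pos h6, odd_cast h6, one_mul]
      · rw [if_neg h6, (ZMod.natCast_eq_zero_iff_even).2 (Nat.not_odd_iff_even.1 h6), zero_mul]
  have hb := fold_bounds hr2 hv
  have hn : fold v ∉ A := by
    rw [hAe]
    exact notMem_empty _
  rw [hA, mem_filter, mem_Ico] at hn
  have h7 : ¬ Odd (#{i : Fin 10 | fold (residues a i) = fold v}) := fun h8 =>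
    hn ⟨⟨hb.1, by omega⟩, hb.2, h8⟩
  rw [Nat.not_odd_iff_even] at h7
  have h9 : (univ.filter fun i : Fin 10 => residues a i = v ∨ residues a i = -v) =
      univ.filter fun i : Fin 10 => fold (residues a i) = fold v :=
    filter_congr fun i _ => (fold_eq_iff hr2 (ha i) hv).symm
  rw [h9]
  exact h7

/-- ten residues which are equal in pairs up to the sign -/
theorem planar_of_even (hr2 : ¬ r ∣ 2310) (a : Fin 5 → ZMod r) (ha : ∀ i, residues a i ≠ 0)
    (hm : ∀ v : ZMod r, v ≠ 0 → Even (#{i : Fin 10 | residues a i = v ∨ residues a i = -v})) :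
    ∃ s t : ZMod r, s ≠ 0 ∧ t ≠ 0 ∧ Permuted (planeVec s t) a := by
  obtain ⟨ts, hts⟩ := Option.isSome_iff_exists.1 go_data
  have hev : ∀ i (hi : i < 10), Fm.ev a (res i) = residues a ⟨i, hi⟩ := fun i hi =>
    ev_res a ⟨i, hi⟩
  refine go_sound hr2 a _ (fun i hi h0 => absurd (by rw [← hev i hi]; exact h0) (ha ⟨i, hi⟩))
    (of_planes a ha) 12 data (List.range 10) [] ts hts (by simp) (fun i hi => List.mem_range.1 hi)
    ⟨List.nodup_range, fun v hv => ?_⟩
  have h1 := hm v hv
  have h2 : (List.range 10).countP (fun i => decide (Fm.ev a (res i) = v ∨ Fm.ev a (res i) = -v)) =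
      #{i : Fin 10 | residues a i = v ∨ residues a i = -v} := by
    rw [card_filter, Fin.sum_univ_eq_sum_range
      (fun i => if (Fm.ev a (res i) = v ∨ Fm.ev a (res i) = -v) then 1 else 0) 10 |>.symm.trans
      (sum_congr rfl fun i _ => by rw [ev_res]) |>.symm]
    rw [← card_filter, List.countP_eq_length_filter]
    rfl
  rw [h2]
  exact h1

/-- The classification for the primes with independent signs. -/
theorem classify (hr11 : 11 < r) (hI : SignsIndependent r) (a : Fin 5 → ZMod r)
    (ha : ∀ i, residues a i ≠ 0) :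
    (∃ h : (ZMod r)ˣ, Even (height fun i => (h : ZMod r) * a i)) ∨
      ∃ s t : ZMod r, s ≠ 0 ∧ t ≠ 0 ∧ Permuted (planeVec s t) a := by
  by_cases hh : ∃ h : (ZMod r)ˣ, Even (height fun i => (h : ZMod r) * a i)
  · exact Or.inl hh
  · right
    push Not at hh
    have h2310 : ¬ r ∣ 2310 := by
      intro h
      have e : 2310 = 2 * 3 * 5 * 7 * 11 := by norm_num
      rw [e, hr.out.dvd_mul, hr.out.dvd_mul, hr.out.dvd_mul, hr.out.dvd_mul] at h
      rcases h with (((h | h) | h) | h) | h <;> exact absurd (Nat.le_of_dvd (by norm_num) h)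
        (by omega)
    exact planar_of_even h2310 a ha fun v hv => even_of_heights (by omega) hI a ha
      (fun h => Nat.not_even_iff_odd.1 (hh h)) hv

end

end Pool.Agent.Helper41.KM
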