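import Pool.Agent.Helper41.KM.Data

/-!
# The classification for primes with independent signs

Let `r` be a prime such that the signs of the numbers `sin (2 π h a / r)`, `0 < a < r / 2`, are
independent modulo two as functions of `h` (equivalently the relative class number of the field of
the `r`-th roots of unity is odd).  If the heights of all multiples of a nondegenerate vector are
odd, then the vector is in one of the fifteen planes.
-/

set_option autoImplicit false

open Finset

namespace Pool.Agent.Helper41.KM

open Pool.Agent.Helper73.QC Pool.Agent.Helper79.KM Pool.Agent.Helper40.KM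

section

variable {r : ℕ} [hr : Fact r.Prime]

theorem plane_vec {R : Type} [CommRing R] (b : Fin 5 → R) (h1 : b 0 + b 1 = 0)
    (h2 : b 0 + b 2 = 0) (h3 : b 1 + b 3 = 0) : b = planeVec (b 0) (-(b 4)) := by
  funext i
  fin_cases i
  · rfl
  · change b 1 = -(b 0)
    linear_combination h1
  · change b 2 = -(b 0)
    linear_combination h2
  · change b 3 = b 0
    linear_combination h3 - h1
  · change b 4 = -(-(b 4))
    ring

theorem of_plane (w : List ℕ) (a : Fin 5 → ZMod r)
    (h1 : (w.foldl (fun b i => step i b) a) 0 + (w.foldl (fun b i => step i b) a) 1 = 0)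
    (h2 : (w.foldl (fun b i => step i b) a) 0 + (w.foldl (fun b i => step i b) a) 2 = 0)
    (h3 : (w.foldl (fun b i => step i b) a) 1 + (w.foldl (fun b i => step i b) a) 3 = 0)
    (h4 : (w.foldl (fun b i => step i b) a) 0 ≠ 0) (h5 : (w.foldl (fun b i => step i b) a) 4 ≠ 0) :
    ∃ s t : ZMod r, s ≠ 0 ∧ t ≠ 0 ∧ Permuted (planeVec s t) a :=
  ⟨_, _, h4, neg_ne_zero.2 h5, of_word w a (plane_vec _ h1 h2 h3)⟩

theorem ev_res (a : Fin 5 → ZMod r) : ∀ i : Fin 10, Fm.ev a (res i) = residues a i := by
  intro i
  fin_cases i <;> simp only [res, RES, Fm.ev] <;> simp [residues] <;> ring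

theorem of_planes (a : Fin 5 → ZMod r) (ha : ∀ i, residues a i ≠ 0) (k : ℕ)
    (f : Fm × Fm × Fm) (hf : planes[k]? = some f) (h1 : Fm.ev a f.1 = 0)
    (h2 : Fm.ev a f.2.1 = 0) (h3 : Fm.ev a f.2.2 = 0) :
    ∃ s t : ZMod r, s ≠ 0 ∧ t ≠ 0 ∧ Permuted (planeVec s t) a := by
  have hk : k < 15 := by
    by_contra hk
    rw [List.getElem?_eq_none (by
      have : planes.length = 15 := rfl
      omega)] at hf
    exact absurd hf (by simp)
  interval_cases k <;> (
    injection hf with hf
    subst hf
    simp only [Fm.ev] at h1 h2 h3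
    push_cast at h1 h2 h3)
  · refine of_plane [] a ?_ ?_ ?_ ?_ ?_
    · change a 0 + a 1 = 0
      linear_combination h1
    · change a 0 + a 2 = 0
      linear_combination h2
    · change a 1 + a 3 = 0
      linear_combination h3
    · change a 0 ≠ 0
      refine fun h => ha 0 ?_
      change a 0 = 0
      linear_combination h
    · change a 4 ≠ 0
      refine fun h => ha 4 ?_
      change a 4 = 0
      linear_combination h
  · refine of_plane [2] a ?_ ?_ ?_ ?_ ?_
    · change -(a 0 + a 1 + a 4) + a 1 = 0
      linear_combination h1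
    · change -(a 0 + a 1 + a 4) + -(a 2 + a 3 + a 4) = 0
      linear_combination h2
    · change a 1 + a 3 = 0
      linear_combination h3
    · change -(a 0 + a 1 + a 4) ≠ 0
      refine fun h => ha 5 ?_
      change -(a 0 + a 1 + a 4) = 0
      linear_combination h
    · change a 4 ≠ 0
      refine fun h => ha 4 ?_
      change a 4 = 0
      linear_combination h
  · refine of_plane [3] a ?_ ?_ ?_ ?_ ?_
    · change a 0 + a 4 = 0
      linear_combination h1
    · change a 0 + -(a 0 + a 1 + a 2 + a 3 + a 4) = 0
      linear_combination h2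
    · change a 4 + a 3 = 0
      linear_combination h3
    · change a 0 ≠ 0
      refine fun h => ha 0 ?_
      change a 0 = 0
      linear_combination h
    · change a 1 ≠ 0
      refine fun h => ha 1 ?_
      change a 1 = 0
      linear_combination h
  · refine of_plane [0, 3] a ?_ ?_ ?_ ?_ ?_
    · change a 2 + a 4 = 0
      linear_combination h1
    · change a 2 + -(a 2 + a 3 + a 0 + a 1 + a 4) = 0
      linear_combination h2
    · change a 4 + a 1 = 0
      linear_combination h3
    · change a 2 ≠ 0
      refine fun h => ha 2 ?_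
      change a 2 = 0
      linear_combination h
    · change a 3 ≠ 0
      refine fun h => ha 3 ?_
      change a 3 = 0
      linear_combination h
  · refine of_plane [1, 2] a ?_ ?_ ?_ ?_ ?_
    · change -(a 1 + a 0 + a 4) + a 0 = 0
      linear_combination h1
    · change -(a 1 + a 0 + a 4) + -(a 3 + a 2 + a 4) = 0
      linear_combination h2
    · change a 0 + a 2 = 0
      linear_combination h3
    · change -(a 1 + a 0 + a 4) ≠ 0
      refine fun h => ha 5 ?_
      change -(a 0 + a 1 + a 4) = 0
      linear_combination h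
    · change a 4 ≠ 0
      refine fun h => ha 4 ?_
      change a 4 = 0
      linear_combination h
  · refine of_plane [2, 3] a ?_ ?_ ?_ ?_ ?_
    · change -(a 0 + a 1 + a 4) + a 4 = 0
      linear_combination h1
    · change -(a 0 + a 1 + a 4) + -(-(a 0 + a 1 + a 4) + a 1 + -(a 2 + a 3 + a 4) + a 3 + a 4) =
        0
      linear_combination h2
    · change a 4 + a 3 = 0
      linear_combination h3
    · change -(a 0 + a 1 + a 4) ≠ 0
      refine fun h => ha 5 ?_
      change -(a 0 + a 1 + a 4) = 0
      linear_combination h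
    · change a 1 ≠ 0
      refine fun h => ha 1 ?_
      change a 1 = 0
      linear_combination h
  · refine of_plane [0, 2, 3] a ?_ ?_ ?_ ?_ ?_
    · change -(a 2 + a 3 + a 4) + a 4 = 0
      linear_combination h1
    · change -(a 2 + a 3 + a 4) + -(-(a 2 + a 3 + a 4) + a 3 + -(a 0 + a 1 + a 4) + a 1 + a 4) =
        0
      linear_combination h2
    · change a 4 + a 1 = 0
      linear_combination h3
    · change -(a 2 + a 3 + a 4) ≠ 0
      refine fun h => ha 6 ?_
      change -(a 2 + a 3 + a 4) = 0
      linear_combination h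
    · change a 3 ≠ 0
      refine fun h => ha 3 ?_
      change a 3 = 0
      linear_combination h
  · refine of_plane [1, 2, 3] a ?_ ?_ ?_ ?_ ?_
    · change -(a 1 + a 0 + a 4) + a 4 = 0
      linear_combination h1
    · change -(a 1 + a 0 + a 4) + -(-(a 1 + a 0 + a 4) + a 0 + -(a 3 + a 2 + a 4) + a 2 + a 4) =
        0
      linear_combination h2
    · change a 4 + a 2 = 0
      linear_combination h3
    · change -(a 1 + a 0 + a 4) ≠ 0
      refine fun h => ha 5 ?_
      change -(a 0 + a 1 + a 4) = 0
      linear_combination h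
    · change a 0 ≠ 0
      refine fun h => ha 0 ?_
      change a 0 = 0
      linear_combination h
  · refine of_plane [3, 1, 2] a ?_ ?_ ?_ ?_ ?_
    · change -(a 4 + a 0 + a 1) + a 0 = 0
      linear_combination h1
    · change -(a 4 + a 0 + a 1) + -(a 3 + -(a 0 + a 1 + a 2 + a 3 + a 4) + a 1) = 0
      linear_combination h2
    · change a 0 + -(a 0 + a 1 + a 2 + a 3 + a 4) = 0
      linear_combination h3
    · change -(a 4 + a 0 + a 1) ≠ 0
      refine fun h => ha 5 ?_
      change -(a 0 + a 1 + a 4) = 0
      linear_combination h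
    · change a 1 ≠ 0
      refine fun h => ha 1 ?_
      change a 1 = 0
      linear_combination h
  · refine of_plane [0, 1, 2, 3] a ?_ ?_ ?_ ?_ ?_
    · change -(a 3 + a 2 + a 4) + a 4 = 0
      linear_combination h1
    · change -(a 3 + a 2 + a 4) + -(-(a 3 + a 2 + a 4) + a 2 + -(a 1 + a 0 + a 4) + a 0 + a 4) =
        0
      linear_combination h2
    · change a 4 + a 0 = 0
      linear_combination h3
    · change -(a 3 + a 2 + a 4) ≠ 0
      refine fun h => ha 6 ?_
      change -(a 2 + a 3 + a 4) = 0
      linear_combination h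
    · change a 2 ≠ 0
      refine fun h => ha 2 ?_
      change a 2 = 0
      linear_combination h
  · refine of_plane [0, 3, 1, 2] a ?_ ?_ ?_ ?_ ?_
    · change -(a 4 + a 2 + a 3) + a 2 = 0
      linear_combination h1
    · change -(a 4 + a 2 + a 3) + -(a 1 + -(a 2 + a 3 + a 0 + a 1 + a 4) + a 3) = 0
      linear_combination h2
    · change a 2 + -(a 2 + a 3 + a 0 + a 1 + a 4) = 0
      linear_combination h3
    · change -(a 4 + a 2 + a 3) ≠ 0
      refine fun h => ha 6 ?_
      change -(a 2 + a 3 + a 4) = 0
      linear_combination h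
    · change a 3 ≠ 0
      refine fun h => ha 3 ?_
      change a 3 = 0
      linear_combination h
  · refine of_plane [1, 3, 1, 2] a ?_ ?_ ?_ ?_ ?_
    · change -(a 4 + a 1 + a 0) + a 1 = 0
      linear_combination h1
    · change -(a 4 + a 1 + a 0) + -(a 2 + -(a 1 + a 0 + a 3 + a 2 + a 4) + a 0) = 0
      linear_combination h2
    · change a 1 + -(a 1 + a 0 + a 3 + a 2 + a 4) = 0
      linear_combination h3
    · change -(a 4 + a 1 + a 0) ≠ 0
      refine fun h => ha 5 ?_
      change -(a 0 + a 1 + a 4) = 0
      linear_combination h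
    · change a 0 ≠ 0
      refine fun h => ha 0 ?_
      change a 0 = 0
      linear_combination h
  · refine of_plane [0, 1, 3, 1, 2] a ?_ ?_ ?_ ?_ ?_
    · change -(a 4 + a 3 + a 2) + a 3 = 0
      linear_combination h1
    · change -(a 4 + a 3 + a 2) + -(a 0 + -(a 3 + a 2 + a 1 + a 0 + a 4) + a 2) = 0
      linear_combination h2
    · change a 3 + -(a 3 + a 2 + a 1 + a 0 + a 4) = 0
      linear_combination h3
    · change -(a 4 + a 3 + a 2) ≠ 0
      refine fun h => ha 6 ?_
      change -(a 2 + a 3 + a 4) = 0
      linear_combination h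
    · change a 2 ≠ 0
      refine fun h => ha 2 ?_
      change a 2 = 0
      linear_combination h
  · refine of_plane [2, 1, 3, 1, 2] a ?_ ?_ ?_ ?_ ?_
    · change -(a 4 + a 1 + -(a 0 + a 1 + a 4)) + a 1 = 0
      linear_combination h1
    · change -(a 4 + a 1 + -(a 0 + a 1 + a 4)) + -(-(a 2 + a 3 + a 4) + -(a 1 + -(a 0 + a 1 + a
        4) + a 3 + -(a 2 + a 3 + a 4) + a 4) + -(a 0 + a 1 + a 4)) = 0
      linear_combination h2
    · change a 1 + -(a 1 + -(a 0 + a 1 + a 4) + a 3 + -(a 2 + a 3 + a 4) + a 4) = 0
      linear_combination h3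
    · change -(a 4 + a 1 + -(a 0 + a 1 + a 4)) ≠ 0
      refine fun h => ha 0 ?_
      change a 0 = 0
      linear_combination h
    · change -(a 0 + a 1 + a 4) ≠ 0
      refine fun h => ha 5 ?_
      change -(a 0 + a 1 + a 4) = 0
      linear_combination h
  · refine of_plane [0, 2, 1, 3, 1, 2] a ?_ ?_ ?_ ?_ ?_
    · change -(a 4 + a 3 + -(a 2 + a 3 + a 4)) + a 3 = 0
      linear_combination h1
    · change -(a 4 + a 3 + -(a 2 + a 3 + a 4)) + -(-(a 0 + a 1 + a 4) + -(a 3 + -(a 2 + a 3 + a
        4) + a 1 + -(a 0 + a 1 + a 4) + a 4) + -(a 2 + a 3 + a 4)) = 0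
      linear_combination h2
    · change a 3 + -(a 3 + -(a 2 + a 3 + a 4) + a 1 + -(a 0 + a 1 + a 4) + a 4) = 0
      linear_combination h3
    · change -(a 4 + a 3 + -(a 2 + a 3 + a 4)) ≠ 0
      refine fun h => ha 2 ?_
      change a 2 = 0
      linear_combination h
    · change -(a 2 + a 3 + a 4) ≠ 0
      refine fun h => ha 6 ?_
      change -(a 2 + a 3 + a 4) = 0
      linear_combination h

end

end Pool.Agent.Helper41.KM
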