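import Pool.Agent.Helper40.KM.Finite

/-!
# Ten residues which are equal in pairs up to the sign

A certificate checker: if among the ten residues of a vector modulo a prime every value occurs an
even number of times up to the sign and no residue is zero, then the vector lies in one of the
fifteen planes.  The pairs give linear relations; the checker runs through a tree of cases.
-/

set_option autoImplicit false

namespace Pool.Agent.Helper41.KM

open Pool.Agent.Helper73.QC Pool.Agent.Helper79.KM Pool.Agent.Helper40.KM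

/-- integral linear forms in five variables -/
structure Fm where
  x0 : ℤ
  x1 : ℤ
  x2 : ℤ
  x3 : ℤ
  x4 : ℤ

namespace Fm

/-- the value at a vector -/
def ev {R : Type} [CommRing R] (a : Fin 5 → R) (v : Fm) : R :=
  v.x0 * a 0 + v.x1 * a 1 + v.x2 * a 2 + v.x3 * a 3 + v.x4 * a 4

/-- the coefficient with a given number -/
def get (v : Fm) : ℕ → ℤ
  | 0 => v.x0
  | 1 => v.x1
  | 2 => v.x2
  | 3 => v.x3
  | _ => v.x4

/-- `p v - q w` -/
def comb (p : ℤ) (v : Fm) (q : ℤ) (w : Fm) : Fm :=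
  ⟨p * v.x0 - q * w.x0, p * v.x1 - q * w.x1, p * v.x2 - q * w.x2, p * v.x3 - q * w.x3,
    p * v.x4 - q * w.x4⟩

theorem ev_comb {R : Type} [CommRing R] (a : Fin 5 → R) (p : ℤ) (v : Fm) (q : ℤ) (w : Fm) :
    ev a (comb p v q w) = p * ev a v - q * ev a w := by
  simp only [ev, comb]
  push_cast
  ring

/-- is the form zero -/
def isZero (v : Fm) : Bool := v.x0 == 0 && v.x1 == 0 && v.x2 == 0 && v.x3 == 0 && v.x4 == 0

theorem ev_of_isZero {R : Type} [CommRing R] (a : Fin 5 → R) {v : Fm} (h : v.isZero = true) :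
    ev a v = 0 := by
  simp only [isZero, Bool.and_eq_true, beq_iff_eq] at h
  obtain ⟨⟨⟨⟨h0, h1⟩, h2⟩, h3⟩, h4⟩ := h
  simp only [ev, h0, h1, h2, h3, h4]
  push_cast
  ring

/-- the greatest common divisor of the coefficients -/
def gcd (v : Fm) : ℕ :=
  Nat.gcd v.x0.natAbs (Nat.gcd v.x1.natAbs (Nat.gcd v.x2.natAbs (Nat.gcd v.x3.natAbs
    v.x4.natAbs)))

/-- division of the coefficients -/
def divBy (v : Fm) (g : ℤ) : Fm := ⟨v.x0 / g, v.x1 / g, v.x2 / g, v.x3 / g, v.x4 / g⟩

/-- the candidate for the pivot -/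
def cand (i : ℕ) (x : ℤ) (b : ℕ × ℕ) : ℕ × ℕ :=
  if x = 0 then b else if b.1 = 0 ∨ x.natAbs < b.1 then (x.natAbs, i) else b

/-- the position of the smallest coefficient -/
def pivot (v : Fm) : ℕ :=
  (cand 4 v.x4 (cand 3 v.x3 (cand 2 v.x2 (cand 1 v.x1 (cand 0 v.x0 (0, 0)))))).2

end Fm

open Fm

/-- only the primes up to eleven divide `m` -/
def good (m : ℤ) : Bool := 2310 ^ 30 % m.natAbs == 0

/-- reduction of a form by the rows -/
def red : List (ℕ × Fm) → ℤ → Fm → ℤ × Fm
  | [], m, v => (m, v)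
  | q :: rows, m, v =>
    if v.get q.1 = 0 then red rows m v
    else red rows (m * q.2.get q.1) (comb (q.2.get q.1) v (v.get q.1) q.2)

/-- the form vanishes if the rows do -/
def zero (rows : List (ℕ × Fm)) (v : Fm) : Bool :=
  let p := red rows 1 v
  p.2.isZero && good p.1

/-- one more row -/
def addRow (rows : List (ℕ × Fm)) (v : Fm) : List (ℕ × Fm) :=
  let w := (red rows 1 v).2
  let g : ℤ := w.gcd
  let u := w.divBy g
  if (good g && (comb 1 w g u).isZero) = true then rows ++ [(u.pivot, u)] else rows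

/-- the ten residues -/
def RES : List Fm :=
  [⟨1, 0, 0, 0, 0⟩, ⟨0, 1, 0, 0, 0⟩, ⟨0, 0, 1, 0, 0⟩, ⟨0, 0, 0, 1, 0⟩, ⟨0, 0, 0, 0, 1⟩,
    ⟨-1, -1, 0, 0, -1⟩, ⟨0, 0, -1, -1, -1⟩, ⟨1, 0, 1, 0, 1⟩, ⟨0, 1, 0, 1, 1⟩,
    ⟨-1, -1, -1, -1, -1⟩]

/-- a residue -/
def res (i : ℕ) : Fm := RES.getD i ⟨0, 0, 0, 0, 0⟩

/-- two residues are equal or opposite -/
def rel (i j s : ℕ) : Fm := if s = 0 then comb 1 (res i) 1 (res j) else comb 1 (res i) (-1) (res j)

/-- the equations of the fifteen planes -/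
def planes : List (Fm × Fm × Fm) :=
  [(⟨1, 1, 0, 0, 0⟩, ⟨1, 0, 1, 0, 0⟩, ⟨0, 1, 0, 1, 0⟩), (⟨-1, 0, 0, 0, -1⟩, ⟨-1, -1, -1, -1,
    -2⟩, ⟨0, 1, 0, 1, 0⟩), (⟨1, 0, 0, 0, 1⟩, ⟨0, -1, -1, -1, -1⟩, ⟨0, 0, 0, 1, 1⟩), (⟨0, 0, 1,
    0, 1⟩, ⟨-1, -1, 0, -1, -1⟩, ⟨0, 1, 0, 0, 1⟩), (⟨0, -1, 0, 0, -1⟩, ⟨-1, -1, -1, -1, -2⟩,
    ⟨1, 0, 1, 0, 0⟩), (⟨-1, -1, 0, 0, 0⟩, ⟨0, -1, 1, 0, 0⟩, ⟨0, 0, 0, 1, 1⟩), (⟨0, 0, -1, -1,
    0⟩, ⟨1, 0, 0, -1, 0⟩, ⟨0, 1, 0, 0, 1⟩), (⟨-1, -1, 0, 0, 0⟩, ⟨-1, 0, 0, 1, 0⟩, ⟨0, 0, 1, 0,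
    1⟩), (⟨0, -1, 0, 0, -1⟩, ⟨0, -1, 1, 0, 0⟩, ⟨0, -1, -1, -1, -1⟩), (⟨0, 0, -1, -1, 0⟩, ⟨0,
    1, -1, 0, 0⟩, ⟨1, 0, 0, 0, 1⟩), (⟨0, 0, 0, -1, -1⟩, ⟨1, 0, 0, -1, 0⟩, ⟨-1, -1, 0, -1,
    -1⟩), (⟨-1, 0, 0, 0, -1⟩, ⟨-1, 0, 0, 1, 0⟩, ⟨-1, 0, -1, -1, -1⟩), (⟨0, 0, -1, 0, -1⟩, ⟨0,
    1, -1, 0, 0⟩, ⟨-1, -1, -1, 0, -1⟩), (⟨1, 1, 0, 0, 0⟩, ⟨1, 1, 0, 1, 1⟩, ⟨1, 1, 1, 0, 1⟩),
    (⟨0, 0, 1, 1, 0⟩, ⟨0, 1, 1, 1, 1⟩, ⟨1, 0, 1, 1, 1⟩)]

/-- the vector lies in the plane -/
def plane (rows : List (ℕ × Fm)) (k : ℕ) : Bool :=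
  match planes[k]? with
  | none => false
  | some f => zero rows f.1 && zero rows f.2.1 && zero rows f.2.2

/-- the partners with signs -/
def pairs (l : List ℕ) : List (ℕ × ℕ) := l.flatMap fun j => [(j, 0), (j, 1)]

/-- the checker -/
def go : ℕ → ℕ → List ℕ → List (ℕ × Fm) → Option ℕ
  | 0, _, _, _ => none
  | n + 1, ts, un, rows =>
    if ts % 512 < 10 then (if zero rows (res (ts % 512)) = true then some (ts / 512) else none)
    else if ts % 512 < 25 then
      (if plane rows (ts % 512 - 10) = true then some (ts / 512) else none)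
    else if ts % 512 < 300 then
      (if (un.contains ((ts % 512 - 30) / 20) &&
          (un.erase ((ts % 512 - 30) / 20)).contains ((ts % 512 - 30) / 2 % 10) &&
          zero rows (rel ((ts % 512 - 30) / 20) ((ts % 512 - 30) / 2 % 10)
            ((ts % 512 - 30) % 2))) = true then
        go n (ts / 512) ((un.erase ((ts % 512 - 30) / 20)).erase ((ts % 512 - 30) / 2 % 10)) rows
      else none)
    else
      (if un.contains (ts % 512 - 300) = true then
        (pairs (un.erase (ts % 512 - 300))).foldl (fun acc q => acc.bind fun ts' =>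
          go n ts' ((un.erase (ts % 512 - 300)).erase q.1)
            (addRow rows (rel (ts % 512 - 300) q.1 q.2))) (some (ts / 512))
      else none)

section

variable {r : ℕ} [hr : Fact r.Prime]

theorem ne_zero_of_good (h : ¬ r ∣ 2310) {m : ℤ} (hm : good m = true) : (m : ZMod r) ≠ 0 := by
  intro h0
  apply h
  have h1 : (r : ℤ) ∣ m := (ZMod.intCast_zmod_eq_zero_iff_dvd m r).1 h0
  have h2 : r ∣ m.natAbs := Int.natCast_dvd.1 h1
  have h3 : m.natAbs ∣ 2310 ^ 30 := Nat.dvd_of_mod_eq_zero (by simpa [good] using hm)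
  exact hr.out.dvd_of_dvd_pow (h2.trans h3)

theorem red_spec (a : Fin 5 → ZMod r) : ∀ (rows : List (ℕ × Fm)) (m : ℤ) (v : Fm),
    (∀ q ∈ rows, ev a q.2 = 0) →
    ∃ c : ℤ, (red rows m v).1 = m * c ∧ ev a (red rows m v).2 = c * ev a v
  | [], m, v, _ => ⟨1, by simp [red], by simp [red]⟩
  | q :: rows, m, v, h => by
    have hq := h q List.mem_cons_self
    have hr' : ∀ q' ∈ rows, ev a q'.2 = 0 := fun q' hq' => h q' (List.mem_cons_of_mem _ hq')
    rw [red]
    split_ifs with h0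
    · exact red_spec a rows m v hr'
    · obtain ⟨c, h1, h2⟩ := red_spec a rows (m * q.2.get q.1)
        (comb (q.2.get q.1) v (v.get q.1) q.2) hr'
      refine ⟨q.2.get q.1 * c, by rw [h1]; ring, ?_⟩
      rw [h2, ev_comb, hq]
      push_cast
      ring

theorem zero_spec (hr2 : ¬ r ∣ 2310) (a : Fin 5 → ZMod r) {rows : List (ℕ × Fm)} {v : Fm}
    (h : ∀ q ∈ rows, ev a q.2 = 0) (hz : zero rows v = true) : ev a v = 0 := by
  obtain ⟨c, h1, h2⟩ := red_spec a rows 1 v h
  simp only [zero, Bool.and_eq_true] at hz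
  have h3 := ne_zero_of_good hr2 hz.2
  rw [h1, one_mul] at h3
  rw [ev_of_isZero a hz.1] at h2
  exact (mul_eq_zero.1 h2.symm).resolve_left h3

theorem addRow_spec (hr2 : ¬ r ∣ 2310) (a : Fin 5 → ZMod r) {rows : List (ℕ × Fm)} {v : Fm}
    (h : ∀ q ∈ rows, ev a q.2 = 0) (hv : ev a v = 0) : ∀ q ∈ addRow rows v, ev a q.2 = 0 := by
  intro q hq
  simp only [addRow] at hq
  split_ifs at hq with h0
  · rw [List.mem_append, List.mem_singleton] at hq
    rcases hq with hq | rfl
    · exact h q hq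
    · rw [Bool.and_eq_true] at h0
      obtain ⟨c, -, h2⟩ := red_spec a rows 1 v h
      rw [hv, mul_zero] at h2
      have h3 := ev_of_isZero a h0.2
      rw [ev_comb, h2] at h3
      have h4 := ne_zero_of_good hr2 h0.1
      rw [mul_zero, zero_sub, neg_eq_zero] at h3
      exact (mul_eq_zero.1 h3).resolve_left h4
  · exact h q hq

/-- what is left of the ten residues is equal in pairs up to the sign -/
def Good (a : Fin 5 → ZMod r) (un : List ℕ) : Prop :=
  un.Nodup ∧ ∀ v, v ≠ 0 → Even (un.countP fun i => decide (ev a (res i) = v ∨ ev a (res i) = -v))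

theorem good_erase {a : Fin 5 → ZMod r} {un : List ℕ} {i j : ℕ} (hi : i ∈ un)
    (hj : j ∈ un.erase i) (hij : ev a (res i) = ev a (res j) ∨ ev a (res i) = -ev a (res j))
    (h : Good a un) : Good a ((un.erase i).erase j) := by
  refine ⟨(h.1.erase _).erase _, fun v hv => ?_⟩
  have hp : un.Perm (i :: j :: (un.erase i).erase j) :=
    (List.perm_cons_erase hi).trans ((List.perm_cons_erase hj).cons i)
  have h1 := h.2 v hv
  rw [hp.countP_eq, List.countP_cons, List.countP_cons] at h1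
  have h2 : (ev a (res i) = v ∨ ev a (res i) = -v) ↔ (ev a (res j) = v ∨ ev a (res j) = -v) := by
    rcases hij with e | e
    · rw [e]
    · rw [e, neg_inj, neg_eq_iff_eq_neg, or_comm]
  simp only [h2] at h1
  by_cases h3 : ev a (res j) = v ∨ ev a (res j) = -v
  · simp only [h3, decide_true, if_true] at h1
    rwa [add_assoc, Nat.even_add, iff_true_right (by decide)] at h1
  · simpa only [h3, decide_false, Bool.false_eq_true, if_false, add_zero] using h1

theorem exists_partner {a : Fin 5 → ZMod r} {un : List ℕ} {i : ℕ} (hi : i ∈ un)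
    (h0 : ev a (res i) ≠ 0) (h : Good a un) :
    ∃ j ∈ un.erase i, ev a (res i) = ev a (res j) ∨ ev a (res i) = -ev a (res j) := by
  have h1 := h.2 _ h0
  rw [(List.perm_cons_erase hi).countP_eq, List.countP_cons] at h1
  simp only [true_or, decide_true, if_true] at h1
  by_contra hcon
  push Not at hcon
  have h2 : (un.erase i).countP
      (fun k => decide (ev a (res k) = ev a (res i) ∨ ev a (res k) = -ev a (res i))) = 0 := by
    rw [List.countP_eq_zero]
    intro k hk
    rw [decide_eq_true_eq]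
    obtain ⟨h3, h4⟩ := hcon k hk
    rintro (e | e)
    · exact h3 e.symm
    · exact h4 (by rw [e, neg_neg])
  rw [h2] at h1
  exact absurd h1 (by decide)

theorem foldl_none {α β : Type} (g : β → α → Option α) : ∀ L : List β,
    L.foldl (fun acc q => acc.bind (g q)) none = none
  | [] => rfl
  | q :: L => by
    rw [List.foldl_cons, Option.bind_none]
    exact foldl_none g L

theorem foldl_some {α β : Type} (g : β → α → Option α) : ∀ (L : List β) (x y : α),
    L.foldl (fun acc q => acc.bind (g q)) (some x) = some y → ∀ q ∈ L, ∃ x' y', g q x' = some y'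
  | [], _, _, _, q, hq => absurd hq List.not_mem_nil
  | p :: L, x, y, h, q, hq => by
    rw [List.foldl_cons, Option.bind_some] at h
    cases hg : g p x with
    | none =>
      rw [hg, foldl_none] at h
      exact absurd h (by simp)
    | some z =>
      rw [hg] at h
      rcases List.mem_cons.1 hq with rfl | hq
      · exact ⟨x, z, hg⟩
      · exact foldl_some g L z y h q hq

theorem go_sound (hr2 : ¬ r ∣ 2310) (a : Fin 5 → ZMod r) (C : Prop)
    (hres : ∀ i < 10, ev a (res i) = 0 → C)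
    (hpl : ∀ (k : ℕ) (f : Fm × Fm × Fm), planes[k]? = some f → ev a f.1 = 0 →
      ev a f.2.1 = 0 → ev a f.2.2 = 0 → C) :
    ∀ (n ts : ℕ) (un : List ℕ) (rows : List (ℕ × Fm)) (ts' : ℕ), go n ts un rows = some ts' →
      (∀ q ∈ rows, ev a q.2 = 0) → (∀ i ∈ un, i < 10) → Good a un → C
  | 0, ts, un, rows, ts', h, _, _, _ => absurd h (by simp [go])
  | n + 1, ts, un, rows, ts', h, hrows, hun, hg => by
    rw [go] at h
    split_ifs at h with h1 h2 h3 h4 h5 h6 h7
    · exact hres _ h1 (zero_spec hr2 a hrows h2)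
    · unfold plane at h4
      cases hf : planes[ts % 512 - 10]? with
      | none =>
        rw [hf] at h4
        exact absurd h4 (by simp)
      | some f =>
        rw [hf] at h4
        simp only [Bool.and_eq_true] at h4
        exact hpl _ f hf (zero_spec hr2 a hrows h4.1.1) (zero_spec hr2 a hrows h4.1.2)
          (zero_spec hr2 a hrows h4.2)
    · simp only [Bool.and_eq_true, List.contains_iff_mem] at h6
      obtain ⟨⟨hi, hj⟩, hz⟩ := h6
      have e := zero_spec hr2 a hrows hz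
      refine go_sound hr2 a C hres hpl n _ _ _ _ h hrows (fun k hk => hun k
        (List.mem_of_mem_erase (List.mem_of_mem_erase hk))) (good_erase hi hj ?_ hg)
      unfold rel at e
      split_ifs at e
      · left
        rw [ev_comb] at e
        push_cast at e
        linear_combination e
      · right
        rw [ev_comb] at e
        push_cast at e
        linear_combination e
    · rw [List.contains_iff_mem] at h7
      by_cases h0 : ev a (res (ts % 512 - 300)) = 0
      · exact hres _ (hun _ h7) h0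
      obtain ⟨j, hj, hij⟩ := exists_partner h7 h0 hg
      have hall := foldl_some (fun (q : ℕ × ℕ) ts'' => go n ts''
        ((un.erase (ts % 512 - 300)).erase q.1) (addRow rows (rel (ts % 512 - 300) q.1 q.2)))
        _ _ _ h
      have hun' : ∀ k ∈ (un.erase (ts % 512 - 300)).erase j, k < 10 := fun k hk => hun k
        (List.mem_of_mem_erase (List.mem_of_mem_erase hk))
      rcases hij with e | e
      · obtain ⟨x, y, hxy⟩ := hall (j, 0) (by
          rw [pairs, List.mem_flatMap]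
          exact ⟨j, hj, by simp⟩)
        refine go_sound hr2 a C hres hpl n _ _ _ _ hxy (addRow_spec hr2 a hrows ?_) hun'
          (good_erase h7 hj (Or.inl e) hg)
        rw [rel, if_pos rfl, ev_comb, e]
        push_cast
        ring
      · obtain ⟨x, y, hxy⟩ := hall (j, 1) (by
          rw [pairs, List.mem_flatMap]
          exact ⟨j, hj, by simp⟩)
        refine go_sound hr2 a C hres hpl n _ _ _ _ hxy (addRow_spec hr2 a hrows ?_) hun'
          (good_erase h7 hj (Or.inr e) hg)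
        rw [rel, if_neg one_ne_zero, ev_comb, e]
        push_cast
        ring

end

end Pool.Agent.Helper41.KM
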